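import Pool.Agent.H.MP_5939ed_al.Main

set_option autoImplicit false

namespace Pool.Agent.Results.MP_5939ed_al.AllN

theorem result (n : ℕ) (hn : 2 ≤ n) :
    ∃ ε : ℝ, 0 < ε ∧ ∀ δ : ℝ, 0 < δ → ∃ (N : ℕ) (a b c : Equiv.Perm (Fin N)), 0 < N ∧
      b⁻¹ * a * b = a ^ n ∧
      ((Finset.univ.filter (fun i => (a⁻¹ * c * a) i ≠ (c ^ n) i)).card : ℝ) / N < δ ∧
      ∀ a' b' c' : Equiv.Perm (Fin N), b'⁻¹ * a' * b' = a' ^ n → a'⁻¹ * c' * a' = c' ^ n →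
        ε ≤ ((Finset.univ.filter (fun i => a i ≠ a' i)).card : ℝ) / N ∨
        ε ≤ ((Finset.univ.filter (fun i => b i ≠ b' i)).card : ℝ) / N ∨
        ε ≤ ((Finset.univ.filter (fun i => c i ≠ c' i)).card : ℝ) / N := by
  obtain ⟨ε, hε, h⟩ := Pool.Agent.H.MP_5939ed_al.main n hn
  refine ⟨ε, hε, fun δ hδ => ?_⟩
  obtain ⟨N, a, b, c, hN, r1, r2, r3⟩ := h δ hδ
  refine ⟨N, a, b, c, hN, r1, r2, fun a' b' c' s1 s2 => ?_⟩
  by_contra hc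
  push Not at hc
  exact r3 a' b' c' s1 s2 hc

end Pool.Agent.Results.MP_5939ed_al.AllN
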